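import Mathlib

/-!
# Linear recurrences satisfied by the digits of a real number

A linear recurrence over `ℚ` of order `m` satisfied by a long block of digits gives, by Siegel's
lemma, a recurrence of slightly larger order with small integer coefficients, and hence a good
rational approximation.
-/

set_option autoImplicit false

namespace Pool.Agent.H831R3.LC

open Finset Polynomial

/-- the shift on sequences -/
def S : Module.End ℤ (ℕ → ℤ) where
  toFun a := fun i => a (i + 1)
  map_add' _ _ := rfl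
  map_smul' _ _ := rfl

lemma S_pow (j : ℕ) : ∀ (a : ℕ → ℤ) (i : ℕ), (S ^ j) a i = a (i + j) := by
  induction j with
  | zero => intro a i; rfl
  | succ j ih =>
    intro a i
    rw [pow_succ, Module.End.mul_apply, ih]
    rfl

/-- the recurrence `t` applied to the sequence `a` -/
noncomputable def W (t : ℤ[X]) (a : ℕ → ℤ) : ℕ → ℤ := aeval S t a

lemma W_eq (t : ℤ[X]) (a : ℕ → ℤ) (i N : ℕ) (h : t.natDegree < N) :
    W t a i = ∑ j ∈ range N, t.coeff j * a (i + j) := by
  unfold W
  rw [aeval_eq_sum_range' h, LinearMap.sum_apply, Finset.sum_apply]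
  refine Finset.sum_congr rfl fun j _ => ?_
  rw [LinearMap.smul_apply, Pi.smul_apply, S_pow, smul_eq_mul]

lemma W_mul (f g : ℤ[X]) (a : ℕ → ℤ) : W (f * g) a = W f (W g a) := by
  unfold W
  rw [map_mul]
  rfl

lemma W_sub (b : ℤ) (a : ℕ → ℤ) (i : ℕ) : W (X - C b) a i = a (i + 1) - b * a i := by
  unfold W
  rw [map_sub, aeval_X, aeval_C, LinearMap.sub_apply, Pi.sub_apply]
  rfl

/-- absolute value of a recurrence applied to a bounded sequence -/
lemma W_abs (t : ℤ[X]) (a : ℕ → ℤ) (B H N : ℕ) (ha : ∀ i, |a i| ≤ B) (ht : ∀ j, |t.coeff j| ≤ H)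
    (hN : t.natDegree < N) (i : ℕ) : |W t a i| ≤ N * H * B := by
  rw [W_eq t a i N hN]
  calc |∑ j ∈ range N, t.coeff j * a (i + j)| ≤ ∑ j ∈ range N, |t.coeff j * a (i + j)| :=
        Finset.abs_sum_le_sum_abs _ _
    _ ≤ ∑ _j ∈ range N, (H : ℤ) * B := by
        refine Finset.sum_le_sum fun j _ => ?_
        rw [abs_mul]
        exact mul_le_mul (ht j) (ha _) (abs_nonneg _) (Int.natCast_nonneg _)
    _ = N * H * B := by rw [Finset.sum_const, card_range, nsmul_eq_mul]; ring

attribute [local instance] Matrix.seminormedAddCommGroup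

/-- Siegel's lemma for recurrences. -/
theorem small (a : ℕ → ℤ) (B : ℕ) (hB : 1 ≤ B) (ha : ∀ i, |a i| ≤ B) (n k l K : ℕ) (hn : 1 ≤ n)
    (hk : 1 ≤ k) (hK : n ≤ K * k) (hl : n ≤ l) (c : ℤ[X]) (hc : c ≠ 0) (hcn : c.natDegree < n)
    (hrel : ∀ i < l + k, W c a i = 0) :
    ∃ t : ℤ[X], t ≠ 0 ∧ t.natDegree < n + k ∧ (∀ j, |t.coeff j| ≤ (((n + k) * B) ^ K : ℕ)) ∧
      ∀ i < l, W t a i = 0 := by
  classical
  set d := c.natDegree with hd
  have hcd : c.coeff d ≠ 0 := by
    rw [hd]; exact leadingCoeff_ne_zero.2 hc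
  -- the rows
  set ρ : Fin n → ℕ := fun r => if (r : ℕ) < d then r else r + (l - n) with hρ
  set A : Matrix (Fin n) (Fin (n + k)) ℤ := Matrix.of fun r j => a (ρ r + j) with hA
  obtain ⟨v, hv0, hv1, hv2⟩ := Int.Matrix.exists_ne_zero_int_vec_norm_le A
    (by simp only [Fintype.card_fin]; omega) (by simp only [Fintype.card_fin]; omega)
  simp only [Fintype.card_fin] at hv2
  have hAn : ‖A‖ ≤ B := by
    rw [Matrix.norm_le_iff (by positivity)]
    intro i j
    rw [Int.norm_eq_abs]
    exact_mod_cast ha _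
  have hv3 : ∀ j, |v j| ≤ (((n + k) * B) ^ K : ℕ) := by
    intro j
    have h1 : ‖v j‖ ≤ ‖v‖ := norm_le_pi_norm v j
    have h2 : (1 : ℝ) ≤ max 1 ‖A‖ := le_max_left _ _
    have h3 : max 1 ‖A‖ ≤ (B : ℝ) := max_le (by exact_mod_cast hB) hAn
    have hn1 : (1 : ℝ) ≤ ((n + k : ℕ) : ℝ) := by exact_mod_cast (by omega : 1 ≤ n + k)
    have h4 : (1 : ℝ) ≤ ((n + k : ℕ) : ℝ) * max 1 ‖A‖ := by nlinarith
    have hkR : (0 : ℝ) < k := by exact_mod_cast hk
    have h5 : ((n : ℝ) / (((n + k : ℕ) : ℝ) - n)) ≤ (K : ℝ) := by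
      have e : (((n + k : ℕ) : ℝ) - n) = k := by push_cast; ring
      rw [e, div_le_iff₀ hkR]
      exact_mod_cast hK
    have h6 : ‖v j‖ ≤ ((((n + k) * B) ^ K : ℕ) : ℝ) := by
      calc ‖v j‖ ≤ ‖v‖ := h1
        _ ≤ (((n + k : ℕ) : ℝ) * max 1 ‖A‖) ^ ((n : ℝ) / (((n + k : ℕ) : ℝ) - n)) := hv2
        _ ≤ (((n + k : ℕ) : ℝ) * max 1 ‖A‖) ^ (K : ℝ) :=
            Real.rpow_le_rpow_of_exponent_le h4 h5
        _ = (((n + k : ℕ) : ℝ) * max 1 ‖A‖) ^ K := Real.rpow_natCast _ _
        _ ≤ (((n + k : ℕ) : ℝ) * B) ^ K := by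
            gcongr
        _ = ((((n + k) * B) ^ K : ℕ) : ℝ) := by push_cast; ring
    rw [Int.norm_eq_abs] at h6
    exact_mod_cast h6
  -- the polynomial
  set t : ℤ[X] := ofFn (n + k) v with ht
  have hco : ∀ j : Fin (n + k), t.coeff j = v j := fun j => by
    rw [ht, ofFn_coeff_eq_val_of_lt v j.2]
  have htd : t.natDegree < n + k := ofFn_natDegree_lt (by omega) v
  have hbd : ∀ j, |t.coeff j| ≤ (((n + k) * B) ^ K : ℕ) := by
    intro j
    by_cases hj : j < n + k
    · have := hco ⟨j, hj⟩
      simp only at this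
      rw [this]
      exact hv3 _
    · rw [ht, ofFn_coeff_eq_zero_of_ge v (by omega), abs_zero]
      positivity
  refine ⟨t, ?_, htd, hbd, ?_⟩
  · intro h0
    apply hv0
    funext j
    rw [← hco j, h0, coeff_zero]
    rfl
  -- the chosen rows vanish
  have hrow : ∀ r : Fin n, W t a (ρ r) = 0 := by
    intro r
    have h1 := congrFun hv1 r
    rw [W_eq t a _ (n + k) htd, Finset.sum_range]
    rw [Matrix.mulVec, dotProduct] at h1
    simp only [Pi.zero_apply] at h1
    rw [← h1]
    refine Finset.sum_congr rfl fun j _ => ?_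
    rw [hco j, hA, Matrix.of_apply, mul_comm]
  -- the recurrence for the values
  have hrec : ∀ i, i + n ≤ l → W c (W t a) i = 0 := by
    intro i hi
    rw [← W_mul, mul_comm, W_mul, W_eq t _ i (n + k) htd]
    refine Finset.sum_eq_zero fun j hj => ?_
    rw [mem_range] at hj
    rw [hrel (i + j) (by omega), mul_zero]
  intro i
  induction i using Nat.strong_induction_on with
  | _ i ih =>
    intro hi
    by_cases h1 : i < d
    · have := hrow ⟨i, by omega⟩
      simp only [hρ, h1, if_true] at this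
      exact this
    · by_cases h2 : i - d + n ≤ l
      · have h3 := hrec (i - d) h2
        rw [W_eq c _ _ n hcn] at h3
        rw [Finset.sum_eq_single d] at h3
        · rw [show i - d + d = i by omega] at h3
          exact (mul_eq_zero.1 h3).resolve_left hcd
        · intro j hj hjd
          rcases lt_or_gt_of_ne hjd with h | h
          · rw [ih (i - d + j) (by omega) (by omega), mul_zero]
          · rw [coeff_eq_zero_of_natDegree_lt (by omega), zero_mul]
        · intro h
          rw [mem_range] at h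
          omega
      · have h4 : ¬ (i - (l - n)) < d := by omega
        have := hrow ⟨i - (l - n), by omega⟩
        simp only [hρ, h4, if_false] at this
        rw [show i - (l - n) + (l - n) = i by omega] at this
        exact this

/-- Division by `X - b`. -/
theorem descend (a : ℕ → ℤ) (B b H M r : ℕ) (hb : 2 ≤ b) (ha : ∀ i, |a i| ≤ B)
    (hbig : (M + 1) * H * B < b ^ r) :
    ∀ (N : ℕ) (t : ℤ[X]), t.natDegree = N → N ≤ M → t ≠ 0 → (∀ j, |t.coeff j| ≤ H) →
      (∀ i < r, W t a i = 0) →
      ∃ s : ℤ[X], s.natDegree ≤ M ∧ (∀ j, |s.coeff j| ≤ H) ∧ (∀ i < r, W s a i = 0) ∧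
        s.eval (b : ℤ) ≠ 0 := by
  intro N
  induction N with
  | zero =>
    intro t hN hM ht hH hr
    refine ⟨t, by omega, hH, hr, ?_⟩
    rw [eq_C_of_natDegree_eq_zero hN, eval_C]
    intro h
    apply ht
    rw [eq_C_of_natDegree_eq_zero hN, h, C_0]
  | succ N ih =>
    intro t hN hM ht hH hr
    by_cases h0 : t.eval (b : ℤ) = 0
    · obtain ⟨g, hg⟩ := dvd_iff_isRoot.2 h0
      have hg0 : g ≠ 0 := by
        rintro rfl
        exact ht (by rw [hg, mul_zero])
      have hgd : g.natDegree = N := by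
        have := natDegree_mul (X_sub_C_ne_zero (b : ℤ)) hg0
        rw [← hg, natDegree_X_sub_C] at this
        omega
      have hbZ : (2 : ℤ) ≤ b := by exact_mod_cast hb
      have hgH : ∀ j, |g.coeff j| ≤ H := by
        intro j
        induction j with
        | zero =>
          have h1 := hH 0
          rw [hg, mul_coeff_zero, coeff_sub, coeff_X_zero, coeff_C_zero, zero_sub, abs_mul,
            abs_neg] at h1
          have h2 : |(b : ℤ)| = b := abs_of_nonneg (by omega)
          rw [h2] at h1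
          nlinarith [abs_nonneg (g.coeff 0)]
        | succ j ihj =>
          have h1 := hH (j + 1)
          rw [hg, coeff_X_sub_C_mul] at h1
          have h3 : |(b : ℤ) * g.coeff (j + 1)| ≤ 2 * H := by
            calc |(b : ℤ) * g.coeff (j + 1)| =
                  |g.coeff j - (g.coeff j - (b : ℤ) * g.coeff (j + 1))| := by ring_nf
              _ ≤ |g.coeff j| + |g.coeff j - (b : ℤ) * g.coeff (j + 1)| := abs_sub _ _
              _ ≤ 2 * H := by linarith
          rw [abs_mul, abs_of_nonneg (by omega : (0 : ℤ) ≤ b)] at h3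
          nlinarith [abs_nonneg (g.coeff (j + 1))]
      -- the values of `g`
      have hstep : ∀ i < r, W g a (i + 1) = b * W g a i := by
        intro i hi
        have h1 := hr i hi
        rw [hg, W_mul, W_sub] at h1
        linarith
      have hpow : ∀ i ≤ r, W g a i = (b : ℤ) ^ i * W g a 0 := by
        intro i
        induction i with
        | zero => intro _; simp
        | succ i ihi =>
          intro hi
          rw [hstep i (by omega), ihi (by omega)]
          ring
      have hz : W g a 0 = 0 := by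
        by_contra hne
        have h1 : 1 ≤ |W g a 0| := Int.one_le_abs hne
        have h2 := W_abs g a B H (N + 1) ha hgH (by omega) r
        rw [hpow r le_rfl, abs_mul, abs_pow, abs_of_nonneg (by omega : (0 : ℤ) ≤ b)] at h2
        have h3 : (((N + 1 : ℕ) : ℤ)) * H * B ≤ ((M + 1) * H * B : ℕ) := by
          push_cast
          have : ((N : ℤ) + 1) ≤ (M : ℤ) + 1 := by
            have : (N : ℤ) ≤ M := by exact_mod_cast (by omega : N ≤ M)
            linarith
          gcongr
        have h4 : (((M + 1) * H * B : ℕ) : ℤ) < (b : ℤ) ^ r := by exact_mod_cast hbig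
        have h5 : (b : ℤ) ^ r * 1 ≤ (b : ℤ) ^ r * |W g a 0| :=
          mul_le_mul_of_nonneg_left h1 (by positivity)
        linarith
      refine ih g hgd (by omega) hg0 hgH ?_
      intro i hi
      rw [hpow i hi.le, hz, mul_zero]
    · exact ⟨t, by omega, hH, hr, h0⟩

end Pool.Agent.H831R3.LC
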