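import Pool.Agent.H831R3.LC.Main

/-!
# Two-sided bounds for the linear complexity profile of the digits
-/

set_option autoImplicit false

namespace Pool.Agent.H831R3.LC

open Finset Polynomial Filter

/-- a rational vector has an integer multiple -/
lemma exists_int_mult (m : ℕ) (c : ℕ → ℚ) : ∃ (D : ℕ) (z : ℕ → ℤ), D ≠ 0 ∧
    ∀ j < m, (z j : ℚ) = D * c j := by
  induction m with
  | zero => exact ⟨1, fun _ => 0, one_ne_zero, fun j hj => absurd hj (Nat.not_lt_zero j)⟩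
  | succ m ih =>
    obtain ⟨D, z, hD, hz⟩ := ih
    refine ⟨D * (c m).den, fun j => if j = m then D * (c m).num else z j * (c m).den,
      mul_ne_zero hD (c m).den_nz, fun j hj => ?_⟩
    by_cases h : j = m
    · subst h
      simp only [if_true]
      push_cast
      have h1 : ((c j).den : ℚ) * c j = (c j).num := Rat.den_mul_eq_num (c j)
      rw [mul_assoc, h1]
    · simp only [h, if_false]
      push_cast
      rw [hz j (by omega)]
      ring

/-- no nontrivial rational relation of small order -/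
theorem lower (x ν c0 : ℝ) (hν : 1 ≤ ν) (hc0 : 0 < c0)
    (hx : ∀ q : ℕ, 1 ≤ q → ∀ p : ℤ, c0 ≤ (q : ℝ) ^ ν * |q * x - p|)
    (θ : ℝ) (hθ0 : 0 ≤ θ) (hθ : θ * (1 + ν) < 1) :
    ∀ᶠ L : ℕ in atTop, ∀ b : ℕ, 2 ≤ b → ∀ m : ℕ, (m : ℝ) ≤ θ * L → ∀ c : ℕ → ℚ,
      (∀ i, i + m < L → ∑ j ∈ range (m + 1), c j * (dig x b (i + 1 + j) : ℚ) = 0) →
      ∀ j ≤ m, c j = 0 := by
  filter_upwards [main x ν c0 hν hc0 hx θ hθ0 hθ] with L hL b hb m hm c hc
  obtain ⟨D, z, hD, hz⟩ := exists_int_mult (m + 1) c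
  set t : ℤ[X] := ∑ j ∈ range (m + 1), C (z j) * X ^ j with ht
  have hco : ∀ j, t.coeff j = if j ≤ m then z j else 0 := by
    intro j
    rw [ht, finset_sum_coeff]
    simp only [coeff_C_mul, coeff_X_pow]
    by_cases h : j ≤ m
    · rw [Finset.sum_eq_single j]
      · simp [h]
      · intro i _ hij
        simp [Ne.symm hij]
      · intro h'
        rw [mem_range] at h'
        omega
    · rw [if_neg h]
      refine Finset.sum_eq_zero fun i hi => ?_
      rw [mem_range] at hi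
      rw [if_neg (by omega), mul_zero]
  have htd : t.natDegree ≤ m := by
    rw [natDegree_le_iff_coeff_eq_zero]
    intro N hN
    rw [hco, if_neg (by omega)]
  have h0 := hL b hb m hm t htd (fun i hi => by
    rw [W_eq t _ i (m + 1) (by omega)]
    have h1 := hc i hi
    have h2 : ((∑ j ∈ range (m + 1), t.coeff j * dig x b (i + j + 1) : ℤ) : ℚ)
        = D * ∑ j ∈ range (m + 1), c j * (dig x b (i + 1 + j) : ℚ) := by
      rw [Finset.mul_sum]
      push_cast
      refine Finset.sum_congr rfl fun j hj => ?_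
      rw [mem_range] at hj
      rw [hco, if_pos (by omega), hz j hj, show i + 1 + j = i + j + 1 by ring]
      ring
    rw [h1, mul_zero] at h2
    exact_mod_cast h2)
  intro j hj
  have h1 : t.coeff j = 0 := by rw [h0, coeff_zero]
  rw [hco, if_pos hj] at h1
  have h2 := hz j (by omega)
  rw [h1] at h2
  have hDQ : (D : ℚ) ≠ 0 := by exact_mod_cast hD
  simpa [hDQ] using h2.symm

/-- recurrences of large order exist -/
theorem upper (x ν c0 : ℝ) (hν : 1 ≤ ν) (hc0 : 0 < c0)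
    (hx : ∀ q : ℕ, 1 ≤ q → ∀ p : ℤ, c0 ≤ (q : ℝ) ^ ν * |q * x - p|)
    (θ : ℝ) (hθ0 : 0 ≤ θ) (hθ : θ * (1 + ν) < 1) :
    ∀ᶠ L : ℕ in atTop, ∀ b : ℕ, 2 ≤ b → ∀ m : ℕ, (1 - θ) * L ≤ m → m ≤ L → ∃ c : ℕ → ℚ,
      ∀ i, i + m < L →
        (dig x b (i + 1 + m) : ℚ) = ∑ j ∈ range m, c j * (dig x b (i + 1 + j) : ℚ) := by
  have hθ1 : θ ≤ 1 := by nlinarith
  have h := (tendsto_sub_atTop_nat 1).eventually (lower x ν c0 hν hc0 hx θ hθ0 hθ)
  filter_upwards [h, eventually_ge_atTop 1] with L hL hL1 b hb m hm hmL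
  rcases Nat.eq_zero_or_pos (L - m) with h0 | hpos
  · exact ⟨fun _ => 0, fun i hi => by omega⟩
  obtain ⟨l, hl⟩ : ∃ l, L - m = l + 1 := ⟨L - m - 1, by omega⟩
  set M : Matrix (Fin (l + 1)) (Fin m) ℚ := Matrix.of fun i j => (dig x b (i + 1 + j) : ℚ)
    with hM
  have hli : LinearIndependent ℚ M.row := by
    rw [Fintype.linearIndependent_iff]
    intro g hg
    set c : ℕ → ℚ := fun j => if h : j < l + 1 then g ⟨j, h⟩ else 0 with hc
    have hlθ : (l : ℝ) ≤ θ * ((L - 1 : ℕ) : ℝ) := by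
      have e1 : (L : ℝ) = m + l + 1 := by exact_mod_cast (by omega : L = m + l + 1)
      rw [Nat.cast_sub hL1]
      push_cast
      nlinarith
    have h1 := hL b hb l hlθ c (fun i hi => by
      have h2 := congrFun hg ⟨i, by omega⟩
      rw [Finset.sum_apply] at h2
      rw [Finset.sum_range]
      simp only [Pi.zero_apply] at h2
      rw [← h2]
      refine Finset.sum_congr rfl fun j _ => ?_
      rw [hc]
      simp only [j.2, dif_pos, Pi.smul_apply, smul_eq_mul, Matrix.row, hM, Matrix.of_apply]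
      rw [show i + 1 + (j : ℕ) = (j : ℕ) + 1 + i by ring])
    intro j
    have h3 := h1 j (by omega)
    rw [hc] at h3
    simpa [j.2] using h3
  have hrank := hli.rank_matrix
  rw [Fintype.card_fin] at hrank
  have hsurj : LinearMap.range M.mulVecLin = ⊤ := by
    apply Submodule.eq_top_of_finrank_eq
    rw [Module.finrank_fin_fun]
    exact hrank
  have hmem : (fun i : Fin (l + 1) => (dig x b (i + 1 + m) : ℚ)) ∈ LinearMap.range M.mulVecLin := by
    rw [hsurj]; exact Submodule.mem_top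
  obtain ⟨v, hv⟩ := hmem
  refine ⟨fun j => if h : j < m then v ⟨j, h⟩ else 0, fun i hi => ?_⟩
  have h2 := congrFun hv ⟨i, by omega⟩
  rw [Matrix.mulVecLin_apply, Matrix.mulVec, dotProduct] at h2
  rw [Finset.sum_range]
  simp only at h2
  rw [← h2]
  refine Finset.sum_congr rfl fun j _ => ?_
  simp only [j.2, dif_pos, hM, Matrix.of_apply]
  ring

/-- `IsRec b x L m`: the first `L` digits satisfy a linear recurrence of order `m` over `ℚ` -/
def IsRec (b : ℕ) (x : ℝ) (L m : ℕ) : Prop :=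
  ∃ c : ℕ → ℚ, ∀ i : ℕ, 1 ≤ i → i + m ≤ L →
    ((⌊x * (b : ℝ) ^ (i + m)⌋ % (b : ℤ) : ℤ) : ℚ) =
      ∑ j ∈ range m, c j * ((⌊x * (b : ℝ) ^ (i + j)⌋ % (b : ℤ) : ℤ) : ℚ)

/-- the linear complexity over `ℚ` of the first `L` digits -/
noncomputable def complexity (b : ℕ) (x : ℝ) (L : ℕ) : ℕ := sInf {m | IsRec b x L m}

theorem isRec_self (b : ℕ) (x : ℝ) (L : ℕ) : IsRec b x L L :=
  ⟨fun _ => 0, fun i h1 h2 => by omega⟩

/-- **Two-sided bound.** -/
theorem profile (x ν c0 : ℝ) (hν : 1 ≤ ν) (hc0 : 0 < c0)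
    (hx : ∀ q : ℕ, 1 ≤ q → ∀ p : ℤ, c0 ≤ (q : ℝ) ^ ν * |q * x - p|)
    (θ : ℝ) (hθ0 : 0 ≤ θ) (hθ : θ * (1 + ν) < 1) :
    ∃ L₀ : ℕ, ∀ L : ℕ, L₀ ≤ L → ∀ b : ℕ, 2 ≤ b →
      θ * L < complexity b x L ∧ (complexity b x L : ℝ) ≤ (1 - θ) * L := by
  -- a slightly larger constant
  obtain ⟨θ', hθ'⟩ : ∃ θ' : ℝ, θ' = (θ + 1 / (1 + ν)) / 2 := ⟨_, rfl⟩
  have hν1 : 0 < 1 + ν := by linarith
  have hlt : θ < 1 / (1 + ν) := by rw [lt_div_iff₀ hν1]; exact hθ
  have h1 : θ < θ' := by rw [hθ']; linarith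
  have h2 : θ' * (1 + ν) < 1 := by
    rw [← lt_div_iff₀ hν1, hθ']; linarith
  have h3 : θ' ≤ 1 := by nlinarith
  have hbig : ∀ᶠ L : ℕ in atTop, (1 : ℝ) ≤ (θ' - θ) * L := by
    have := tendsto_natCast_atTop_atTop.eventually_ge_atTop (1 / (θ' - θ) : ℝ)
    filter_upwards [this] with L hL
    rw [div_le_iff₀ (by linarith)] at hL
    linarith
  have hev := (lower x ν c0 hν hc0 hx θ hθ0 hθ).and
    ((upper x ν c0 hν hc0 hx θ' (by linarith) h2).and hbig)
  rw [eventually_atTop] at hev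
  obtain ⟨L₀, hL₀⟩ := hev
  refine ⟨L₀, fun L hL b hb => ?_⟩
  obtain ⟨hlow, hup, hbg⟩ := hL₀ L hL
  constructor
  · by_contra hcon
    push Not at hcon
    have hmem : IsRec b x L (complexity b x L) :=
      Nat.sInf_mem (s := {m | IsRec b x L m}) ⟨L, isRec_self b x L⟩
    obtain ⟨c, hc⟩ := hmem
    set m := complexity b x L with hm
    have h4 := hlow b hb m hcon (fun j => if j = m then -1 else c j) (fun i hi => by
      rw [Finset.sum_range_succ]
      have h5 := hc (i + 1) (by omega) (by omega)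
      simp only [if_true]
      have h6 : ∑ j ∈ range m, (if j = m then (-1 : ℚ) else c j) * (dig x b (i + 1 + j) : ℚ)
          = ∑ j ∈ range m, c j * (dig x b (i + 1 + j) : ℚ) := by
        refine Finset.sum_congr rfl fun j hj => ?_
        rw [mem_range] at hj
        rw [if_neg (by omega)]
      rw [h6]
      unfold dig
      rw [← h5]
      ring)
    have h7 := h4 m le_rfl
    simp only [if_true] at h7
    norm_num at h7
  · obtain ⟨m, hm⟩ : ∃ m : ℕ, m = ⌈(1 - θ') * (L : ℝ)⌉₊ := ⟨_, rfl⟩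
    have hL0 : (0 : ℝ) ≤ L := Nat.cast_nonneg L
    have hm1 : (1 - θ') * (L : ℝ) ≤ m := by rw [hm]; exact Nat.le_ceil _
    have hm2 : (m : ℝ) < (1 - θ') * L + 1 := by
      rw [hm]; exact Nat.ceil_lt_add_one (mul_nonneg (by linarith) hL0)
    have hmL : m ≤ L := by
      have : (m : ℝ) < L + 1 := by
        have h8 : 0 ≤ θ' * (L : ℝ) := mul_nonneg (by linarith) hL0
        linarith
      exact_mod_cast Nat.lt_succ_iff.1 (by exact_mod_cast this)
    obtain ⟨c, hc⟩ := hup b hb m hm1 hmL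
    have hle : complexity b x L ≤ m := by
      apply Nat.sInf_le
      refine ⟨c, fun i h5 h6 => ?_⟩
      have h7 := hc (i - 1) (by omega)
      rw [show i - 1 + 1 = i by omega] at h7
      exact h7
    have hleR : (complexity b x L : ℝ) ≤ m := by exact_mod_cast hle
    linarith

/-- numbers with irrationality exponent two -/
theorem half (x : ℝ) (hx : ∀ ε : ℝ, 0 < ε → ∃ c : ℝ, 0 < c ∧ ∀ q : ℕ, 1 ≤ q → ∀ p : ℤ,
      c ≤ (q : ℝ) ^ (1 + ε) * |q * x - p|) (ε : ℝ) (hε : 0 < ε) :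
    ∃ L₀ : ℕ, ∀ L : ℕ, L₀ ≤ L → ∀ b : ℕ, 2 ≤ b →
      (1 / 2 - ε) * L < complexity b x L ∧ (complexity b x L : ℝ) < (1 / 2 + ε) * L := by
  -- reduce to small `ε`
  obtain ⟨η, hη⟩ : ∃ η : ℝ, η = min ε (1 / 4) := ⟨_, rfl⟩
  have hη0 : 0 < η := by rw [hη]; exact lt_min hε (by norm_num)
  have hη1 : η ≤ 1 / 4 := by rw [hη]; exact min_le_right _ _
  have hηε : η ≤ ε := by rw [hη]; exact min_le_left _ _
  obtain ⟨c, hc, h⟩ := hx η hη0
  obtain ⟨L₀, hL₀⟩ := profile x (1 + η) c (by linarith) hc h (1 / 2 - η / 2) (by linarith)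
    (by nlinarith)
  refine ⟨max L₀ 1, fun L hL b hb => ?_⟩
  obtain ⟨h1, h2⟩ := hL₀ L (le_trans (le_max_left _ _) hL) b hb
  have hL1 : (1 : ℝ) ≤ L := by exact_mod_cast le_trans (le_max_right _ _) hL
  constructor
  · nlinarith
  · nlinarith

end Pool.Agent.H831R3.LC
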