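import Pool.Agent.H831R3.LC.Core

/-!
# Lower bound for the linear complexity of the digits
-/

set_option autoImplicit false

namespace Pool.Agent.H831R3.LC

open Finset Polynomial Filter

/-- `⌊x b^i⌋` -/
noncomputable def A (x : ℝ) (b : ℕ) (i : ℕ) : ℤ := ⌊x * (b : ℝ) ^ i⌋

/-- the `i`-th digit of `x` in base `b` after the point -/
noncomputable def dig (x : ℝ) (b i : ℕ) : ℤ := ⌊x * (b : ℝ) ^ i⌋ % (b : ℤ)

lemma dig_eq (x : ℝ) (b : ℕ) (hb : 1 ≤ b) (i : ℕ) :
    dig x b (i + 1) = A x b (i + 1) - b * A x b i := by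
  have hbR : (b : ℝ) ≠ 0 := by positivity
  have h1 : ⌊x * (b : ℝ) ^ (i + 1)⌋ / (b : ℤ) = ⌊x * (b : ℝ) ^ i⌋ := by
    rw [← Int.floor_div_natCast]
    congr 1
    rw [pow_succ]
    field_simp
  unfold dig A
  rw [← h1]
  have := Int.mul_ediv_add_emod ⌊x * (b : ℝ) ^ (i + 1)⌋ (b : ℤ)
  linarith

lemma dig_abs (x : ℝ) (b : ℕ) (hb : 1 ≤ b) (i : ℕ) : |dig x b i| ≤ b := by
  unfold dig
  have hb0 : (0 : ℤ) < b := by exact_mod_cast hb
  rw [abs_of_nonneg (Int.emod_nonneg _ hb0.ne')]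
  exact (Int.emod_lt_of_pos _ hb0).le

theorem approx (x : ℝ) (b H r : ℕ) (hb : 1 ≤ b) (t : ℤ[X]) (ht : ∀ j, |t.coeff j| ≤ H)
    (hr : ∀ i < r, W t (fun i => dig x b (i + 1)) i = 0) :
    ∃ p : ℤ, |((t.eval (b : ℤ) : ℤ) : ℝ) * x - p| * (b : ℝ) ^ r ≤ (t.natDegree + 1) * H := by
  set G := W t (A x b) with hG
  have hd : (fun i => dig x b (i + 1)) = W (X - C (b : ℤ)) (A x b) := by
    funext i
    rw [W_sub, dig_eq x b hb]
  have hstep : ∀ i < r, G (i + 1) = b * G i := by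
    intro i hi
    have h1 := hr i hi
    rw [hd, ← W_mul, mul_comm, W_mul, W_sub] at h1
    linarith
  have hpow : ∀ i ≤ r, G i = (b : ℤ) ^ i * G 0 := by
    intro i
    induction i with
    | zero => intro _; simp
    | succ i ihi =>
      intro hi
      rw [hstep i (by omega), ihi (by omega)]
      ring
  refine ⟨G 0, ?_⟩
  have hclose : ∀ i, |((t.eval (b : ℤ) : ℤ) : ℝ) * x * (b : ℝ) ^ i - G i|
      ≤ (t.natDegree + 1) * H := by
    intro i
    have e1 : ((t.eval (b : ℤ) : ℤ) : ℝ) * x * (b : ℝ) ^ i - G i =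
        ∑ j ∈ range (t.natDegree + 1), (t.coeff j : ℝ) * Int.fract (x * (b : ℝ) ^ (i + j)) := by
      rw [hG, W_eq t _ i _ (Nat.lt_succ_self _), eval_eq_sum_range]
      push_cast
      rw [Finset.sum_mul, Finset.sum_mul, ← Finset.sum_sub_distrib]
      refine Finset.sum_congr rfl fun j _ => ?_
      unfold A Int.fract
      rw [pow_add]
      ring
    rw [e1]
    calc _ ≤ ∑ j ∈ range (t.natDegree + 1),
          |(t.coeff j : ℝ) * Int.fract (x * (b : ℝ) ^ (i + j))| :=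
          Finset.abs_sum_le_sum_abs _ _
      _ ≤ ∑ _j ∈ range (t.natDegree + 1), (H : ℝ) := by
          refine Finset.sum_le_sum fun j _ => ?_
          rw [abs_mul, abs_of_nonneg (Int.fract_nonneg (x * (b : ℝ) ^ (i + j)))]
          have h1 : |(t.coeff j : ℝ)| ≤ H := by exact_mod_cast ht j
          have h2 := (Int.fract_lt_one (x * (b : ℝ) ^ (i + j))).le
          have h3 := Int.fract_nonneg (x * (b : ℝ) ^ (i + j))
          nlinarith [abs_nonneg (t.coeff j : ℝ)]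
      _ = _ := by rw [Finset.sum_const, card_range, nsmul_eq_mul]; push_cast; ring
  have h1 := hclose r
  rw [hpow r le_rfl] at h1
  push_cast at h1
  have e2 : ((t.eval (b : ℤ) : ℤ) : ℝ) * x * (b : ℝ) ^ r - (b : ℝ) ^ r * (G 0 : ℝ)
      = (((t.eval (b : ℤ) : ℤ) : ℝ) * x - (G 0 : ℝ)) * (b : ℝ) ^ r := by ring
  rw [e2, abs_mul, abs_of_nonneg (by positivity : (0 : ℝ) ≤ (b : ℝ) ^ r)] at h1
  exact h1

/-- The inequality obtained from a recurrence. -/
theorem key (x ν c0 : ℝ) (hν : 0 ≤ ν) (hc0 : 0 < c0)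
    (hx : ∀ q : ℕ, 1 ≤ q → ∀ p : ℤ, c0 ≤ (q : ℝ) ^ ν * |q * x - p|)
    (b : ℕ) (hb : 2 ≤ b) (n k r K : ℕ) (hn : 1 ≤ n) (hk : 1 ≤ k) (hK : n ≤ K * k) (hr : n ≤ r)
    (c : ℤ[X]) (hc : c ≠ 0) (hcn : c.natDegree < n)
    (hrel : ∀ i < r + k, W c (fun i => dig x b (i + 1)) i = 0)
    (hbig : (n + k) * ((n + k) * b) ^ K * b < b ^ r) :
    Real.log c0 + r * Real.log b ≤
      (1 + ν) * ((K + 1) * Real.log (n + k : ℕ) + K * Real.log b)
        + ν * ((n + k - 1 : ℕ) * Real.log b) := by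
  obtain ⟨t, ht0, htd, htH, htr⟩ := small (fun i => dig x b (i + 1)) b (by omega)
    (fun i => dig_abs x b (by omega) _) n k r K hn hk hK hr c hc hcn hrel
  set H : ℕ := ((n + k) * b) ^ K with hH
  obtain ⟨s, hsd, hsH, hsr, hs0⟩ := descend (fun i => dig x b (i + 1)) b b H (n + k - 1) r hb
    (fun i => dig_abs x b (by omega) _)
    (by rw [show n + k - 1 + 1 = n + k by omega]; exact hbig)
    t.natDegree t rfl (by omega) ht0 htH htr
  obtain ⟨p, hp⟩ := approx x b H r (by omega) s hsH hsr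
  have hbR : (2 : ℝ) ≤ b := by exact_mod_cast hb
  have hb0 : (0 : ℝ) < b := by linarith
  have hnkR : (0 : ℝ) < (n + k : ℕ) := by exact_mod_cast (by omega : 0 < n + k)
  have hH0 : 0 < H := by rw [hH]; positivity
  have hHR : (0 : ℝ) < H := by exact_mod_cast hH0
  -- the size of `Q`
  have hQ : |s.eval (b : ℤ)| ≤ (n + k : ℕ) * H * (b : ℤ) ^ (n + k - 1) := by
    rw [eval_eq_sum_range]
    calc |∑ j ∈ range (s.natDegree + 1), s.coeff j * (b : ℤ) ^ j|
        ≤ ∑ j ∈ range (s.natDegree + 1), |s.coeff j * (b : ℤ) ^ j| :=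
          Finset.abs_sum_le_sum_abs _ _
      _ ≤ ∑ _j ∈ range (s.natDegree + 1), (H : ℤ) * (b : ℤ) ^ (n + k - 1) := by
          refine Finset.sum_le_sum fun j hj => ?_
          rw [mem_range] at hj
          rw [abs_mul, abs_of_nonneg (by positivity : (0 : ℤ) ≤ (b : ℤ) ^ j)]
          refine mul_le_mul (hsH j) ?_ (by positivity) (by positivity)
          exact pow_le_pow_right₀ (by omega) (by omega)
      _ = (s.natDegree + 1 : ℕ) * H * (b : ℤ) ^ (n + k - 1) := by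
          rw [Finset.sum_const, card_range, nsmul_eq_mul]; ring
      _ ≤ (n + k : ℕ) * H * (b : ℤ) ^ (n + k - 1) := by
          have : ((s.natDegree + 1 : ℕ) : ℤ) ≤ (n + k : ℕ) := by
            exact_mod_cast (by omega : s.natDegree + 1 ≤ n + k)
          gcongr
  obtain ⟨q, hq⟩ : ∃ q : ℕ, q = (s.eval (b : ℤ)).natAbs := ⟨_, rfl⟩
  have hq1 : 1 ≤ q := by
    rw [hq]
    exact Int.natAbs_pos.2 hs0
  have hqR : (q : ℝ) = |((s.eval (b : ℤ) : ℤ) : ℝ)| := by
    rw [hq, Nat.cast_natAbs, Int.cast_abs]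
  have hqle : (q : ℝ) ≤ (n + k : ℕ) * H * (b : ℝ) ^ (n + k - 1) := by
    rw [hqR]
    exact_mod_cast hQ
  -- the approximation
  have hqx : ∃ p' : ℤ, |(q : ℝ) * x - p'| = |((s.eval (b : ℤ) : ℤ) : ℝ) * x - p| := by
    rcases abs_cases ((s.eval (b : ℤ) : ℤ) : ℝ) with ⟨h1, _⟩ | ⟨h1, _⟩
    · exact ⟨p, by rw [hqR, h1]⟩
    · refine ⟨-p, ?_⟩
      rw [hqR, h1, ← abs_neg]
      congr 1
      push_cast
      ring
  obtain ⟨p', hp'⟩ := hqx
  have h1 := hx q hq1 p'
  rw [hp'] at h1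
  have hse : ((s.natDegree : ℝ) + 1) ≤ (n + k : ℕ) := by
    exact_mod_cast (by omega : s.natDegree + 1 ≤ n + k)
  have h2 : c0 * (b : ℝ) ^ r ≤ ((n + k : ℕ) * H * (b : ℝ) ^ (n + k - 1)) ^ ν * ((n + k : ℕ) * H) := by
    calc c0 * (b : ℝ) ^ r ≤ ((q : ℝ) ^ ν * |((s.eval (b : ℤ) : ℤ) : ℝ) * x - p|) * (b : ℝ) ^ r :=
          mul_le_mul_of_nonneg_right h1 (by positivity)
      _ = (q : ℝ) ^ ν * (|((s.eval (b : ℤ) : ℤ) : ℝ) * x - p| * (b : ℝ) ^ r) := by ring
      _ ≤ (q : ℝ) ^ ν * ((n + k : ℕ) * H) := by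
          refine mul_le_mul_of_nonneg_left (hp.trans ?_) (by positivity)
          exact mul_le_mul_of_nonneg_right hse hHR.le
      _ ≤ ((n + k : ℕ) * H * (b : ℝ) ^ (n + k - 1)) ^ ν * ((n + k : ℕ) * H) := by
          refine mul_le_mul_of_nonneg_right ?_ (by positivity)
          exact Real.rpow_le_rpow (by positivity) hqle hν
  have h3 := Real.log_le_log (by positivity) h2
  rw [Real.log_mul hc0.ne' (by positivity), Real.log_pow,
    Real.log_mul (by positivity) (by positivity), Real.log_rpow (by positivity),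
    Real.log_mul (by positivity) (by positivity), Real.log_pow,
    Real.log_mul hnkR.ne' hHR.ne'] at h3
  have h4 : Real.log (H : ℝ) = K * (Real.log (n + k : ℕ) + Real.log b) := by
    rw [hH]
    push_cast
    rw [Real.log_pow, Real.log_mul (by positivity) (by positivity)]
  rw [h4] at h3
  linarith

/-- **Lower bound for the linear complexity.** -/
theorem main (x ν c0 : ℝ) (hν : 1 ≤ ν) (hc0 : 0 < c0)
    (hx : ∀ q : ℕ, 1 ≤ q → ∀ p : ℤ, c0 ≤ (q : ℝ) ^ ν * |q * x - p|)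
    (θ : ℝ) (hθ0 : 0 ≤ θ) (hθ : θ * (1 + ν) < 1) :
    ∀ᶠ L : ℕ in atTop, ∀ b : ℕ, 2 ≤ b → ∀ m : ℕ, (m : ℝ) ≤ θ * L → ∀ c : ℤ[X],
      c.natDegree ≤ m → (∀ i, i + m < L → W c (fun i => dig x b (i + 1)) i = 0) → c = 0 := by
  obtain ⟨u, hu⟩ : ∃ u : ℝ, u = θ * (1 + ν) := ⟨_, rfl⟩
  have hu0 : 0 ≤ u := by rw [hu]; positivity
  rw [← hu] at hθ
  obtain ⟨K, hK⟩ := exists_nat_gt (u / (1 - u))
  have hK0 : (0 : ℝ) < K := lt_of_le_of_lt (div_nonneg hu0 (by linarith)) hK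
  have hK1 : 0 < K := by exact_mod_cast hK0
  obtain ⟨δ, hδ⟩ : ∃ δ : ℝ, δ = 1 - u * (1 + 1 / K) := ⟨_, rfl⟩
  have hδ0 : 0 < δ := by
    rw [div_lt_iff₀ (by linarith)] at hK
    have h1 : u / K < 1 - u := by
      rw [div_lt_iff₀ hK0]; linarith
    rw [hδ]
    have e : u * (1 + 1 / K) = u + u / K := by ring
    rw [e]; linarith
  obtain ⟨R, hR⟩ : ∃ R : ℝ, R = (1 + ν) * (K + 3) := ⟨_, rfl⟩
  have hR0 : 0 < R := by rw [hR]; positivity
  have hev : ∀ᶠ L : ℕ in atTop, R * (2 * Real.log (L + 1) + 1) + 2 * |Real.log c0| + 3 < δ * L := by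
    have h1 := (Real.isLittleO_log_id_atTop.comp_tendsto tendsto_natCast_atTop_atTop).def
      (show 0 < δ / (4 * R) by positivity)
    have h2 := tendsto_natCast_atTop_atTop.eventually_gt_atTop
      ((3 * R + 2 * |Real.log c0| + 3) / (δ / 2) : ℝ)
    filter_upwards [h1, h2, eventually_ge_atTop 1] with L hL1 hL2 hL3
    have hLR : (1 : ℝ) ≤ L := by exact_mod_cast hL3
    simp only [Function.comp, id] at hL1
    rw [Real.norm_eq_abs, Real.norm_eq_abs, abs_of_nonneg (Real.log_nonneg hLR),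
      abs_of_nonneg (by linarith : (0 : ℝ) ≤ L)] at hL1
    have h3 : Real.log ((L : ℝ) + 1) ≤ 1 + Real.log L := by
      have h4 : Real.log ((L : ℝ) + 1) ≤ Real.log (2 * L) :=
        Real.log_le_log (by linarith) (by linarith)
      rw [Real.log_mul (by norm_num) (by linarith)] at h4
      have := Real.log_two_lt_d9
      linarith
    rw [div_lt_iff₀ (by positivity)] at hL2
    have h5 : R * Real.log L ≤ δ / 4 * L := by
      calc R * Real.log L ≤ R * (δ / (4 * R) * L) := mul_le_mul_of_nonneg_left hL1 hR0.le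
        _ = δ / 4 * L := by field_simp
    have h6 := mul_le_mul_of_nonneg_left h3 hR0.le
    linarith
  filter_upwards [hev, eventually_ge_atTop 1] with L hL hL1 b hb m hm c hcm hrel
  by_contra hc
  have hLR : (1 : ℝ) ≤ L := by exact_mod_cast hL1
  have hlogL : 0 ≤ Real.log ((L : ℝ) + 1) := Real.log_nonneg (by linarith)
  obtain ⟨k, hk⟩ : ∃ k : ℕ, k = (m + 1) / K + 1 := ⟨_, rfl⟩
  have hk1 : 1 ≤ k := by
    rw [hk]
    exact Nat.le_add_left 1 _
  have hkR : (k : ℝ) ≤ (m + 1) / K + 1 := by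
    rw [hk]
    push_cast
    have := @Nat.cast_div_le ℝ _ _ _ (m + 1) K
    push_cast at this
    linarith
  have hKinv : 1 / (K : ℝ) ≤ 1 := by
    rw [div_le_one hK0]; exact_mod_cast hK1
  have hKinv0 : 0 < 1 / (K : ℝ) := by positivity
  have hM : (m : ℝ) + k ≤ θ * (1 + 1 / K) * L + 2 := by
    have e : ((m : ℝ) + 1) / K = m * (1 / K) + 1 / K := by ring
    rw [e] at hkR
    have := mul_le_mul_of_nonneg_right hm (by positivity : (0 : ℝ) ≤ 1 + 1 / K)
    linarith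
  have hθδ : θ * (1 + 1 / K) * (1 + ν) = 1 - δ := by rw [hδ, hu]; ring
  have hw : 0 ≤ θ * (1 + 1 / K) * L := by positivity
  have hM1 : (1 + ν) * ((m : ℝ) + k) ≤ (1 - δ) * L + 2 * (1 + ν) := by
    calc (1 + ν) * ((m : ℝ) + k) ≤ (1 + ν) * (θ * (1 + 1 / K) * L + 2) :=
          mul_le_mul_of_nonneg_left hM (by linarith)
      _ = (θ * (1 + 1 / K) * (1 + ν)) * L + 2 * (1 + ν) := by ring
      _ = _ := by rw [hθδ]
  have hw2 : 2 * (θ * (1 + 1 / K) * L) ≤ (1 - δ) * L := by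
    rw [← hθδ]
    have := mul_nonneg hw (sub_nonneg.2 hν)
    linarith
  have hRK : (K : ℝ) + 3 ≤ R := by
    rw [hR]
    have : 0 ≤ ν * ((K : ℝ) + 3) := by positivity
    linarith
  have hc00 : 0 ≤ |Real.log c0| := abs_nonneg _
  have hmR : (m : ℝ) ≤ θ * (1 + 1 / K) * L := by
    refine hm.trans ?_
    have : θ * (L : ℝ) * 1 ≤ θ * L * (1 + 1 / K) :=
      mul_le_mul_of_nonneg_left (by linarith) (by positivity)
    linarith
  have hRpos : 0 ≤ R * (2 * Real.log (L + 1) + 1) := by positivity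
  have hsum : (m : ℝ) + 1 + (m + k) ≤ L := by
    linarith
  have hsumN : m + 1 + (m + k) ≤ L := by exact_mod_cast hsum
  obtain ⟨r, hr⟩ : ∃ r : ℕ, r = L - (m + k) := ⟨_, rfl⟩
  have hrR : (r : ℝ) = L - (m + k) := by
    rw [hr, Nat.cast_sub (by omega)]
    push_cast
    ring
  have hbR : (2 : ℝ) ≤ b := by exact_mod_cast hb
  have hb0 : (0 : ℝ) < b := by linarith
  have hlb : 1 / 2 < Real.log b := by
    have h1 := Real.log_le_log (by norm_num) hbR
    have h2 := Real.log_two_gt_d9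
    linarith
  have hMlog : Real.log (m + 1 + k : ℕ) ≤ Real.log ((L : ℝ) + 1) := by
    apply Real.log_le_log
    · positivity
    · push_cast
      linarith
  have hMlog0 : 0 ≤ Real.log (m + 1 + k : ℕ) := Real.log_nonneg (by push_cast; linarith [
    (Nat.cast_nonneg m : (0 : ℝ) ≤ m), (Nat.cast_nonneg k : (0 : ℝ) ≤ k)])
  have hrδ : δ * L - 2 ≤ r := by
    rw [hrR]
    linarith
  have hbig : (m + 1 + k) * ((m + 1 + k) * b) ^ K * b < b ^ r := by
    have h1 : Real.log (((m + 1 + k) * ((m + 1 + k) * b) ^ K * b : ℕ) : ℝ)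
        < Real.log ((b ^ r : ℕ) : ℝ) := by
      have e1 : Real.log (((m + 1 + k) * ((m + 1 + k) * b) ^ K * b : ℕ) : ℝ)
          = (K + 1) * Real.log (m + 1 + k : ℕ) + (K + 1) * Real.log b := by
        rw [show (m + 1 + k) * ((m + 1 + k) * b) ^ K * b
          = (m + 1 + k) ^ (K + 1) * b ^ (K + 1) by rw [mul_pow]; ring]
        rw [Nat.cast_mul, Nat.cast_pow, Nat.cast_pow, Real.log_mul (by positivity) (by positivity),
          Real.log_pow, Real.log_pow]
        push_cast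
        ring
      rw [e1, Nat.cast_pow, Real.log_pow]
      have h2 : (K + 1) * Real.log (m + 1 + k : ℕ) ≤ (K + 1) * Real.log ((L : ℝ) + 1) :=
        mul_le_mul_of_nonneg_left hMlog (by positivity)
      have h3 : (K + 1) * Real.log ((L : ℝ) + 1) ≤
          (2 * ((K + 1) * Real.log ((L : ℝ) + 1))) * Real.log b := by
        have h31 : 0 ≤ (K + 1) * Real.log ((L : ℝ) + 1) := by positivity
        have h32 := mul_nonneg h31 (sub_nonneg.2 hlb.le)
        linarith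
      have h4 : 2 * ((K + 1) * Real.log ((L : ℝ) + 1)) + (K + 1) < r := by
        have h5 : (K + 3) * (2 * Real.log ((L : ℝ) + 1) + 1) ≤
            R * (2 * Real.log ((L : ℝ) + 1) + 1) :=
          mul_le_mul_of_nonneg_right hRK (by positivity)
        linarith
      have h6 := mul_lt_mul_of_pos_right h4 (by linarith : (0 : ℝ) < Real.log b)
      linarith
    have h2 := (Real.log_lt_log_iff (by positivity) (by positivity)).1 h1
    exact_mod_cast h2
  have hKk : m + 1 ≤ K * k := by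
    rw [hk]
    exact (Nat.lt_mul_div_succ (m + 1) hK1).le
  clear hk
  have hkey := key x ν c0 (by linarith) hc0 hx b hb (m + 1) k r K (by omega) hk1
    hKk (by omega) c hc (by omega)
    (fun i hi => hrel i (by omega)) hbig
  rw [show m + 1 + k - 1 = m + k by omega] at hkey
  have h7 : -|Real.log c0| ≤ Real.log c0 := neg_abs_le _
  have h8 : (1 + ν) * ((K + 1) * Real.log (m + 1 + k : ℕ)) ≤
      (1 + ν) * ((K + 1) * Real.log ((L : ℝ) + 1)) := by
    gcongr
  have h9 : (δ * L - (1 + ν) * (K + 2)) * Real.log b ≤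
      (1 + ν) * ((K + 1) * Real.log ((L : ℝ) + 1)) + |Real.log c0| := by
    have e1 : (r : ℝ) - ν * (m + k) - (1 + ν) * K = L - (1 + ν) * (m + k) - (1 + ν) * K := by
      rw [hrR]; ring
    have e2 : δ * L - (1 + ν) * (K + 2) ≤ (r : ℝ) - ν * (m + k) - (1 + ν) * K := by
      rw [e1]; linarith
    have e3 := mul_le_mul_of_nonneg_right e2 (by linarith : (0 : ℝ) ≤ Real.log b)
    push_cast at hkey
    push_cast at h8
    linarith
  have h10 : (1 + ν) * (K + 2) + (2 * ((1 + ν) * ((K + 1) * Real.log ((L : ℝ) + 1)))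
      + 2 * |Real.log c0|) < δ * L := by
    have e1 : R * (2 * Real.log ((L : ℝ) + 1) + 1) =
        (1 + ν) * (K + 2) + 2 * ((1 + ν) * ((K + 1) * Real.log ((L : ℝ) + 1)))
          + (1 + ν) * (4 * Real.log ((L : ℝ) + 1) + 1) := by rw [hR]; ring
    have e2 : 0 ≤ (1 + ν) * (4 * Real.log ((L : ℝ) + 1) + 1) := by positivity
    linarith
  have h11 : 0 ≤ (1 + ν) * ((K + 1) * Real.log ((L : ℝ) + 1)) + |Real.log c0| := by positivity
  have h12 : 0 ≤ δ * L - (1 + ν) * (K + 2) := by linarith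
  have h13 := mul_nonneg h12 (sub_nonneg.2 hlb.le)
  linarith

end Pool.Agent.H831R3.LC
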